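import Pool.Agent.N931.PN.Stm
import Pool.Agent.N144.EW.DetA
import Pool.Agent.H985R3.TA.STA

/-!
Project PN: two layers, examined edges in the bulk (helper407).
-/

set_option autoImplicit false

namespace Pool.Agent.N407.PN.B0

open H974 H12S H389NS H984N H984P H342P Finset
open Pool.Agent.N116.EW Pool.Agent.N931.PN Pool.Agent.N144.EW

theorem bd_wir' {D : Dm} {e : Edg} (h : e ∈ D.wir) : D.bd (tgt e) ≤ 0 := by
  obtain ⟨x, y, b⟩ := e
  unfold Dm.bd
  rcases h with ⟨hb, h, _⟩ | ⟨hb, h, _⟩ | ⟨hb, h, _⟩ <;> simp only at h hb <;> subst hb <;> subst h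
  · exact (min_le_right _ _).trans ((min_le_right _ _).trans (by simp))
  · exact (min_le_left _ _).trans ((min_le_left _ _).trans (by simp))
  · exact (min_le_right _ _).trans ((min_le_left _ _).trans (by simp))

theorem wv_far {D : Dm} {u c : Vtx} {m : ℤ} (hu : u ∈ wv D) (h : m ≤ D.bd c) : m ≤ sd u c := by
  have h1 : D.bd u ≤ 0 := by
    obtain ⟨g, hg, rfl | rfl⟩ := hu
    · exact bd_wir hg
    · exact bd_wir' hg
  have h2 := bd_near (D := D) (u := u) (c := c) (m := sd u c) le_rfl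
  omega

theorem main (hF2 : S_F2) : S_B0 := by
  obtain ⟨C, hC, hA⟩ := H985T.st_A
  refine ⟨1 + C * (2 : ℝ) ^ (1 / 4 : ℝ), by positivity, ?_⟩
  intro D hD e he w hw hwb ρ hρ
  have hhp : Ok (hp : Edg → ℝ) := fun _ => ⟨by unfold hp; norm_num, by unfold hp; norm_num⟩
  have hw0 : (0 : ℝ) < w := by exact_mod_cast hw
  have h2 : (0 : ℝ) ≤ C * (2 : ℝ) ^ (1 / 4 : ℝ) := by positivity
  refine (P2_le_Pr hρ _ _).trans ?_
  rcases Nat.lt_or_ge w 2 with hw2 | hw2
  · have hw1 : w = 1 := by omega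
    subst hw1
    refine (Pr_le_one hhp _ _).trans ?_
    rw [Nat.cast_one, Real.one_rpow, mul_one]
    linarith
  · have h3 : Pr hp D.edges (EV D e 0) ≤ C * ((2 : ℕ) / w : ℝ) ^ (1 / 4 : ℝ) := by
      refine le_trans (Pr_mono hhp ?_) (hA 2 w (by norm_num) hw2 (src e).1 (src e).2 D.edges)
      intro F hF hev
      obtain ⟨n1, n2⟩ := hF2 D hD e he F hF 0 1 w le_rfl hev
      obtain ⟨u, v, hu, hv, huv⟩ := n1 fun u hu => wv_far hu hwb
      obtain ⟨f, g, hf, hg, hfg⟩ := n2 fun f hf => outer_far hf hwb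
      constructor
      · refine ⟨u, v, ?_, ?_, huv.mono Set.diff_subset⟩
        · rw [sd_le_iff] at hu
          unfold inR
          push_cast at hu ⊢
          omega
        · rw [le_sd_iff] at hv
          omega
      · refine ⟨f, g, ?_, ?_, hfg.mono ?_⟩
        · rw [sd_le_iff] at hf
          unfold inR
          push_cast at hf ⊢
          omega
        · rw [le_sd_iff] at hg
          omega
        · rintro g' ⟨k1, k2, -⟩
          rw [Finset.mem_coe, Finset.mem_sdiff]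
          exact ⟨k1, fun h => k2 (Or.inl h)⟩
    refine h3.trans ?_
    have h4 : ((2 : ℕ) / w : ℝ) ^ (1 / 4 : ℝ) = (2 : ℝ) ^ (1 / 4 : ℝ) * (w : ℝ) ^ (-(1 / 4) : ℝ) := by
      rw [Real.div_rpow (by positivity) hw0.le, Real.rpow_neg hw0.le]
      push_cast
      rw [div_eq_mul_inv]
    rw [h4]
    have h5 : (0 : ℝ) ≤ (w : ℝ) ^ (-(1 / 4) : ℝ) := by positivity
    nlinarith

end Pool.Agent.N407.PN.B0
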