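import Pool.Agent.N931.PN.Stm

/-!
Project PN: the examined edges determine the path (helper407).
-/

set_option autoImplicit false

namespace Pool.Agent.N407.PN.Stop

open H974 H12S H389NS H984N H984P H342P Finset
open Pool.Agent.N116.EW Pool.Agent.N931.PN

theorem main : S_STOP := by
  intro D hD F F' hF hF' hJ
  have key : ∀ k ≤ D.len F, D.walk F' k = D.walk F k := by
    intro k
    induction k with
    | zero => intro _; rfl
    | succ k ih =>
      intro hk
      have h1 := ih (by omega)
      have e1 : D.walk F' (k + 1) = nxt (D.cfg F') (D.walk F' k) := orb_succ _ _ _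
      have e2 : D.walk F (k + 1) = nxt (D.cfg F) (D.walk F k) := orb_succ _ _ _
      rw [e1, e2, h1]
      have h3 : ae (D.walk F k) ∈ F' ↔ ae (D.walk F k) ∈ F := by
        by_cases he : ae (D.walk F k) ∈ D.edges
        · have hmem : ae (D.walk F k) ∈ JJ D F := by
            unfold JJ
            rw [Finset.mem_filter]
            exact ⟨Finset.mem_image.2 ⟨k, Finset.mem_range.2 (by omega), rfl⟩, he⟩
          have h4 : ae (D.walk F k) ∈ F ∩ JJ D F ↔ ae (D.walk F k) ∈ F' ∩ JJ D F := by rw [hJ]
          rw [Finset.mem_inter, Finset.mem_inter] at h4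
          exact ⟨fun h => (h4.2 ⟨h, hmem⟩).1, fun h => (h4.1 ⟨h, hmem⟩).1⟩
        · exact ⟨fun h => absurd (hF' h) he, fun h => absurd (hF h) he⟩
      have h2 : ae (D.walk F k) ∈ D.cfg F' ↔ ae (D.walk F k) ∈ D.cfg F := by
        show (ae (D.walk F k) ∈ (↑F' : Set Edg) ∪ D.wir) ↔ (ae (D.walk F k) ∈ (↑F : Set Edg) ∪ D.wir)
        rw [Set.mem_union, Set.mem_union, Finset.mem_coe, Finset.mem_coe, h3]
      by_cases h : ae (D.walk F k) ∈ D.cfg F
      · rw [nxt_open h, nxt_open (h2.2 h)]
      · rw [nxt_closed h, nxt_closed (fun h' => h (h2.1 h'))]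
  refine ⟨?_, key⟩
  have hF1 := key (D.len F) le_rfl
  rw [walk_len hD hF] at hF1
  apply le_antisymm
  · exact Nat.sInf_le hF1
  · by_contra hlt
    push Not at hlt
    have h5 := walk_len hD hF'
    rw [key _ hlt.le] at h5
    have h6 : D.len F ≤ D.len F' := Nat.sInf_le h5
    omega

end Pool.Agent.N407.PN.Stop
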